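import Pool.Agent.N877.P24.Defs

/-!
# P24: evaluation of `cp + cp3`
-/

set_option autoImplicit false

namespace Pool.Agent.N763.P24

open Finset Matrix
open Pool.Agent.N877.P24
open Pool.Agent.Z700 (V3 vec cp hh fac S_PC)

theorem mem_vec (n : ℤ) (v : V3) :
    v ∈ vec n ↔ v 0 * v 0 + v 1 * v 1 + v 2 * v 2 = n := by
  unfold Pool.Agent.Z700.vec
  rw [Finset.mem_filter, ← Matrix.vec3_dotProduct v v]
  constructor
  · exact fun h => h.2
  · intro h
    refine ⟨?_, h⟩
    rw [Fintype.mem_piFinset]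
    intro i
    rw [Finset.mem_Icc]
    rw [Matrix.vec3_dotProduct v v] at h
    have key : v i ^ 2 ≤ n := by
      rw [← h]
      fin_cases i
      · simp only [Fin.zero_eta]; nlinarith [sq_nonneg (v 0), sq_nonneg (v 1), sq_nonneg (v 2)]
      · simp only [Fin.mk_one]; nlinarith [sq_nonneg (v 0), sq_nonneg (v 1), sq_nonneg (v 2)]
      · show v 2 ^ 2 ≤ _
        nlinarith [sq_nonneg (v 0), sq_nonneg (v 1), sq_nonneg (v 2)]
    constructor
    · nlinarith [sq_nonneg (v i + 1), sq_nonneg (v i), Int.le_self_sq (v i), Int.le_self_sq (-v i)]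
    · nlinarith [Int.le_self_sq (v i)]

theorem ip_eq (v w : V3) : v ⬝ᵥ w = v 0 * w 0 + v 1 * w 1 + v 2 * w 2 := Matrix.vec3_dotProduct v w

theorem sq_mod3 {b : ℤ} (hb : ¬ (3 : ℤ) ∣ b) : (3 : ℤ) ∣ b ^ 2 - 1 := by
  have h : b % 3 = 1 ∨ b % 3 = 2 := by omega
  have e : b ^ 2 - 1 = (b - 1) * (b + 1) := by ring
  rw [e]
  rcases h with h | h
  · exact Dvd.dvd.mul_right (by omega) _
  · exact Dvd.dvd.mul_left (by omega) _

theorem prop3 {b : ℤ} (hb : ¬ (3 : ℤ) ∣ b) (v w : V3) :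
    (∀ i, (3 : ℤ) ∣ v i + b * w i) ↔ ∀ i, (3 : ℤ) ∣ w i + 16 * b * v i := by
  have hs := sq_mod3 hb
  constructor
  · intro h i
    have e : w i + 16 * b * v i = b * (v i + b * w i) - (b ^ 2 - 1) * w i + 3 * (5 * b * v i) := by
      ring
    rw [e]
    exact dvd_add (dvd_sub ((h i).mul_left _) (hs.mul_right _)) (Dvd.intro _ rfl)
  · intro h i
    have e : v i + b * w i = b * (w i + 16 * b * v i) - (b ^ 2 - 1) * (16 * v i)
        - 3 * (5 * v i) := by ring
    rw [e]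
    exact dvd_sub (dvd_sub ((h i).mul_left _) (hs.mul_right _)) (Dvd.intro _ rfl)

/-- the translation -/
def T3 (b : ℤ) (w v : V3) : V3 := fun i => 3 * w i - 16 * b * v i

/-- the inverse translation -/
def U3 (b : ℤ) (w v : V3) : V3 := fun i => (w i + 16 * b * v i) / 3

theorem cp3_eq (n1 b n2 b' n2' : ℤ) (hb : ¬ (3 : ℤ) ∣ b) (hb' : 3 * b' = b + 16 * b * n1)
    (hn : 9 * n2' = n2 + 32 * b ^ 2 + 256 * b ^ 2 * n1) : cp3 n1 b n2 = cp n1 b' n2' := by
  unfold cp3 cp
  refine Finset.card_nbij' (fun q => (q.1, U3 b q.2 q.1)) (fun q => (q.1, T3 b q.2 q.1)) ?_ ?_ ?_ ?_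
  · rintro ⟨v, w⟩ h
    simp only [Finset.coe_filter, Set.mem_ofPred_eq, Finset.mem_product, mem_vec] at h ⊢
    obtain ⟨⟨h1, h2⟩, h3, h4⟩ := h
    rw [prop3 hb] at h4
    choose u hu using h4
    have hU : U3 b w v = u := by
      funext i
      unfold U3
      rw [hu i]
      exact Int.mul_ediv_cancel_left _ (by norm_num)
    rw [hU]
    have hw : ∀ i, w i = 3 * u i - 16 * b * v i := fun i => by linarith [hu i]
    rw [ip_eq] at h3 ⊢
    simp only [hw] at h2 h3
    refine ⟨⟨h1, ?_⟩, ?_⟩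
    · linarith [congrArg (fun x => 256 * b ^ 2 * x) h1, congrArg (fun x => 32 * b * x) h3]
    · linarith [congrArg (fun x => 16 * b * x) h1]
  · rintro ⟨v, w⟩ h
    simp only [Finset.coe_filter, Set.mem_ofPred_eq, Finset.mem_product, mem_vec] at h ⊢
    obtain ⟨⟨h1, h2⟩, h3⟩ := h
    rw [prop3 hb]
    have hT : ∀ i, T3 b w v i = 3 * w i - 16 * b * v i := fun i => rfl
    rw [ip_eq] at h3 ⊢
    simp only [hT]
    refine ⟨⟨h1, ?_⟩, ?_, ?_⟩
    · linarith [congrArg (fun x => 256 * b ^ 2 * x) h1, congrArg (fun x => 96 * b * x) h3,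
        congrArg (fun x => 32 * b * x) hb']
    · linarith [congrArg (fun x => 16 * b * x) h1]
    · intro i
      exact ⟨w i, by ring⟩
  · rintro ⟨v, w⟩ h
    simp only [Finset.coe_filter, Set.mem_ofPred_eq, Finset.mem_product, mem_vec] at h ⊢
    obtain ⟨⟨h1, h2⟩, h3, h4⟩ := h
    rw [prop3 hb] at h4
    have hTU : T3 b (U3 b w v) v = w := by
      funext i
      show 3 * ((w i + 16 * b * v i) / 3) - 16 * b * v i = w i
      rw [Int.mul_ediv_cancel' (h4 i)]
      ring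
    show (v, T3 b (U3 b w v) v) = (v, w)
    rw [hTU]
  · rintro ⟨v, w⟩ h
    have hUT : U3 b (T3 b w v) v = w := by
      funext i
      show (3 * w i - 16 * b * v i + 16 * b * v i) / 3 = w i
      have : 3 * w i - 16 * b * v i + 16 * b * v i = 3 * w i := by ring
      rw [this]
      exact Int.mul_ediv_cancel_left _ (by norm_num)
    show (v, U3 b (T3 b w v) v) = (v, w)
    rw [hUT]

theorem cp3_zero (n1 b n2 : ℤ) (hb : ¬ (3 : ℤ) ∣ b) (h9 : ¬ (9 : ℤ) ∣ n1 * n2 - b ^ 2) :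
    cp3 n1 b n2 = 0 := by
  unfold cp3
  rw [Finset.card_eq_zero, Finset.filter_eq_empty_iff]
  rintro ⟨v, w⟩ h h3
  simp only [Finset.mem_product, mem_vec] at h h3
  obtain ⟨h1, h2⟩ := h
  obtain ⟨h3, h4⟩ := h3
  rw [prop3 hb] at h4
  choose u hu using h4
  have hw : ∀ i, w i = 3 * u i - 16 * b * v i := fun i => by linarith [hu i]
  apply h9
  rw [ip_eq] at h3
  have e : n1 * n2 - b ^ 2 = (v 0 * v 0 + v 1 * v 1 + v 2 * v 2) * (w 0 * w 0 + w 1 * w 1 + w 2 * w 2)
      - (v 0 * w 0 + v 1 * w 1 + v 2 * w 2) ^ 2 := by rw [h1, h2, h3]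
  rw [e]
  simp only [hw]
  refine ⟨(v 0 * v 0 + v 1 * v 1 + v 2 * v 2) * (u 0 * u 0 + u 1 * u 1 + u 2 * u 2)
      - (v 0 * u 0 + v 1 * u 1 + v 2 * u 2) ^ 2, ?_⟩
  ring

/-! ### the local factors -/

theorem jac_n1 {n1 : ℕ} (h : n1 % 3 = 2) : jacobiSym (-(n1 : ℤ)) 3 = 1 := by
  rw [jacobiSym.mod_left]
  have e : (-(n1 : ℤ)) % ((3 : ℕ) : ℤ) = 1 := by
    push_cast
    omega
  rw [e]
  exact jacobiSym.one_left 3

theorem fac3 {n1 : ℕ} (h : n1 % 3 = 2) (D : ℕ) : fac n1 D 3 = (D.factorization 3 : ℤ) + 1 := by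
  unfold fac
  rw [if_neg (by omega), jac_n1 h]
  simp

theorem fact9 (D' l : ℕ) (hD' : 0 < D') (hl : l.Prime) (h3 : l ≠ 3) :
    (9 * D').factorization l = D'.factorization l := by
  rw [Nat.factorization_mul (by norm_num) hD'.ne']
  have h9 : (9 : ℕ).factorization l = 0 := by
    apply Nat.factorization_eq_zero_of_not_dvd
    intro h
    have h1 : l ∣ 3 ^ 2 := by norm_num; exact h
    have h2 := hl.dvd_of_dvd_pow h1
    rw [Nat.prime_dvd_prime_iff_eq hl (by norm_num)] at h2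
    exact h3 h2
  simp [h9]

theorem fact9_3 (D' : ℕ) (hD' : 0 < D') :
    (9 * D').factorization 3 = 2 + D'.factorization 3 := by
  rw [Nat.factorization_mul (by norm_num) hD'.ne']
  have h9 : (9 : ℕ).factorization 3 = 2 := by
    have : (9 : ℕ) = 3 ^ 2 := by norm_num
    rw [this, Nat.Prime.factorization_pow (by norm_num)]
    simp
  simp [h9]

theorem jac9 (x : ℤ) (l : ℕ) (hl : l.Prime) (h3 : l ≠ 3) :
    jacobiSym (9 * x) l = jacobiSym x l := by
  rw [jacobiSym.mul_left]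
  have h1 : jacobiSym (9 : ℤ) l = 1 := by
    have : (9 : ℤ) = 3 ^ 2 := by norm_num
    rw [this]
    apply jacobiSym.sq_one'
    rw [Int.gcd_comm]
    have h2 : Nat.Coprime l 3 := (Nat.coprime_primes hl (by norm_num)).2 h3
    exact_mod_cast h2
  rw [h1, one_mul]

theorem fac9 (n1 D' l : ℕ) (hD' : 0 < D') (hl : l.Prime) (h3 : l ≠ 3) :
    fac n1 (9 * D') l = fac n1 D' l := by
  unfold fac hh
  rw [fact9 D' l hD' hl h3]
  have h1 : 9 * D' / l ^ D'.factorization l = 9 * (D' / l ^ D'.factorization l) :=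
    Nat.mul_div_assoc _ (Nat.ordProj_dvd D' l)
  rw [h1]
  have h2 : (-((9 * (D' / l ^ D'.factorization l) : ℕ) : ℤ)) =
      9 * (-((D' / l ^ D'.factorization l : ℕ) : ℤ)) := by
    push_cast
    ring
  have h4 : (-((n1 / l * (9 * (D' / l ^ D'.factorization l)) : ℕ) : ℤ)) =
      9 * (-((n1 / l * (D' / l ^ D'.factorization l) : ℕ) : ℤ)) := by
    push_cast
    ring
  rw [h2, h4, jac9 _ l hl h3, jac9 _ l hl h3]

theorem pf9 (D' : ℕ) (hD' : 0 < D') :
    ((9 * D').primeFactors.erase 2).erase 3 = (D'.primeFactors.erase 2).erase 3 := by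
  rw [Nat.primeFactors_mul (by norm_num) hD'.ne']
  have h9 : (9 : ℕ).primeFactors = {3} := by
    have : (9 : ℕ) = 3 ^ 2 := by norm_num
    rw [this]
    exact Nat.primeFactors_prime_pow (by norm_num) (by norm_num)
  rw [h9]
  ext x
  simp only [Finset.mem_erase, Finset.mem_union, Finset.mem_singleton]
  tauto

/-- the product away from `2` and `3` -/
theorem prod9 (n1 D' : ℕ) (hD' : 0 < D') :
    ∏ l ∈ ((9 * D').primeFactors.erase 2).erase 3, fac n1 (9 * D') l =
      ∏ l ∈ (D'.primeFactors.erase 2).erase 3, fac n1 D' l := by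
  rw [pf9 D' hD']
  refine Finset.prod_congr rfl fun l hl => ?_
  have h1 := Finset.mem_erase.1 hl
  exact fac9 n1 D' l hD' (Nat.prime_of_mem_primeFactors (Finset.mem_erase.1 h1.2).2) h1.1

/-- the factor at `3` -/
theorem prod_eq {n1 : ℕ} (h : n1 % 3 = 2) (D : ℕ) (hD : 0 < D) :
    ∏ l ∈ D.primeFactors.erase 2, fac n1 D l =
      ((D.factorization 3 : ℤ) + 1) * ∏ l ∈ (D.primeFactors.erase 2).erase 3, fac n1 D l := by
  by_cases h3 : 3 ∈ D.primeFactors.erase 2
  · rw [← Finset.mul_prod_erase _ _ h3, fac3 h]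
  · rw [Finset.erase_eq_of_notMem h3]
    have h2 : D.factorization 3 = 0 := by
      apply Nat.factorization_eq_zero_of_not_dvd
      intro h4
      apply h3
      rw [Finset.mem_erase, Nat.mem_primeFactors]
      exact ⟨by norm_num, by norm_num, h4, hD.ne'⟩
    rw [h2]
    simp

/-- **CP3** -/
theorem t_CP3 (hPC : S_PC) : S_CP3 := by
  intro n1 n2 b D hs h1 h2 ho hb hD hDD
  have hcp := hPC n1 n2 b D hs (by omega) (by omega) ho hD hDD
  rw [hcp, prod_eq (by omega : n1 % 3 = 2) D hD]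
  unfold loc3
  have hb3 := sq_mod3 hb
  have h3D : 3 ∣ D := by
    have : (3 : ℤ) ∣ (D : ℤ) := by
      rw [hDD]
      have e : (n1 : ℤ) * n2 - b ^ 2 = ((n1 : ℤ) * n2 - 1) - (b ^ 2 - 1) := by ring
      rw [e]
      refine dvd_sub ?_ hb3
      obtain ⟨c, hc⟩ : ∃ c : ℤ, (n1 : ℤ) = 3 * c + 2 := ⟨n1 / 3, by omega⟩
      obtain ⟨d, hd⟩ : ∃ d : ℤ, (n2 : ℤ) = 3 * d + 2 := ⟨n2 / 3, by omega⟩
      rw [hc, hd]
      exact ⟨3 * c * d + 2 * c + 2 * d + 1, by ring⟩
    exact_mod_cast this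
  by_cases h9 : 9 ∣ D
  · obtain ⟨D', rfl⟩ := h9
    have hD' : 0 < D' := by omega
    have h3n : (3 : ℤ) ∣ b + 16 * b * n1 := by
      have e : b + 16 * b * (n1 : ℤ) = b * (1 + 16 * n1) := by ring
      rw [e]
      exact Dvd.dvd.mul_left (by omega) _
    obtain ⟨b', hb'⟩ := h3n
    have h9n : (9 : ℤ) ∣ n2 + 32 * b ^ 2 + 256 * b ^ 2 * n1 := by
      have hc : IsCoprime (9 : ℤ) n1 := by
        have : IsCoprime (3 : ℤ) n1 := by
          rw [Prime.coprime_iff_not_dvd Int.prime_three]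
          omega
        have h := IsCoprime.mul_left this this
        norm_num at h
        exact h
      refine hc.dvd_of_dvd_mul_left ?_
      have e : (n1 : ℤ) * (n2 + 32 * b ^ 2 + 256 * b ^ 2 * n1) =
          9 * (D' : ℤ) + (b + 16 * b * n1) ^ 2 := by
        push_cast at hDD
        rw [hDD]
        ring
      rw [e, hb']
      exact ⟨D' + b' ^ 2, by ring⟩
    obtain ⟨n2', hn2'⟩ := h9n
    have hn0 : 0 ≤ n2' := by
      have : 0 ≤ 9 * n2' := by
        rw [← hn2']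
        positivity
      omega
    obtain ⟨N2, rfl⟩ := Int.eq_ofNat_of_zero_le hn0
    have hc3 := cp3_eq n1 b n2 b' N2 hb hb'.symm hn2'.symm
    rw [hc3]
    have hDD' : (D' : ℤ) = n1 * N2 - b' ^ 2 := by
      have : 9 * (D' : ℤ) = 9 * (n1 * N2 - b' ^ 2) := by
        have e1 : (9 : ℤ) * (n1 * N2 - b' ^ 2) = n1 * (9 * N2) - (3 * b') ^ 2 := by ring
        push_cast at hDD
        rw [e1, ← hb', ← hn2', hDD]
        ring
      linarith
    have ho' : Odd b' := by
      have : Odd (3 * b') := by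
        rw [← hb']
        have e : b + 16 * b * (n1 : ℤ) = b + 2 * (8 * b * n1) := by ring
        rw [e]
        exact ho.add_even (even_two_mul _)
      exact (Int.odd_mul.1 this).2
    have h8 : N2 % 8 = 3 := by
      have e : (n2 : ℤ) + 8 * (4 * b ^ 2 + 32 * b ^ 2 * n1) = 9 * N2 := by
        rw [← hn2']
        ring
      omega
    rw [hPC n1 N2 b' D' hs (by omega) h8 ho' hD' hDD', prod_eq (by omega : n1 % 3 = 2) D' hD',
      prod9 n1 D' hD', fact9_3 D' hD', fact9 D' 2 hD' (by norm_num) (by norm_num)]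
    split_ifs
    · push_cast
      ring
    · norm_num
  · have hz : cp3 n1 b n2 = 0 := by
      refine cp3_zero n1 b n2 hb ?_
      rw [← hDD]
      intro h
      exact h9 (by exact_mod_cast h)
    have hk : D.factorization 3 = 1 := by
      have k1 : 1 ≤ D.factorization 3 :=
        (Nat.Prime.dvd_iff_one_le_factorization (by norm_num) hD.ne').1 h3D
      have k2 : ¬ 2 ≤ D.factorization 3 := by
        intro h
        have := (Nat.Prime.pow_dvd_iff_le_factorization (p := 3) (by norm_num) hD.ne').2 h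
        norm_num at this
        exact h9 this
      omega
    rw [hz, hk]
    split_ifs
    · push_cast
      ring
    · norm_num

end Pool.Agent.N763.P24
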