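import Pool.Agent.N763.P24.CP3
import Pool.Agent.Y288.Z7.Cnt
import Pool.Agent.Y155.Z7.XC
import Pool.Agent.Z700.EV

/-!
# P24: CP3 without hypotheses
-/

set_option autoImplicit false

namespace Pool.Agent.N763.P24

/-- the number of pairs of vectors with given Gram matrix -/
theorem t_PC : Pool.Agent.Z700.S_PC :=
  Pool.Agent.Z700.pc_of Pool.Agent.Y288.Z7.t_CNT' Pool.Agent.Y155.Z7.t_XC Pool.Agent.Z700.t_EV

/-- CP3 -/
theorem f_CP3 : Pool.Agent.N877.P24.S_CP3 := t_CP3 t_PC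

end Pool.Agent.N763.P24

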